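import Pool.Agent.Helper58.Qip.Stmts

set_option autoImplicit false

/-!
Heat kernel upper bound on the graph of a good configuration (packet B).
-/

open MeasureTheory ProbabilityTheory Filter Topology
open scoped ENNReal NNReal

namespace Pool.Agent.Helper31.Qip

open Pool.Agent.Helper58.Qip

/-! ### Real analysis of the recursion -/

lemma recursion_bound (a : ℕ → ℝ) (s K : ℝ) (hs : 0 < s) (hK : 0 < K) (ha : ∀ n, 0 < a n)
    (h : ∀ n, a n ^ (1 + s) ≤ K * (a n - a (n + 1))) :
    ∀ n : ℕ, 1 ≤ n → a n ≤ (K / (s * n)) ^ (1 / s) := by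
  have key : ∀ n, a n ^ (-s) + s / K ≤ a (n + 1) ^ (-s) := by
    intro n
    have h0 := ha n
    have h1 := ha (n + 1)
    set x : ℝ := a n ^ s / K with hx
    have hxpos : 0 < x := by positivity
    have hle : a (n + 1) ≤ a n * (1 - x) := by
      have h2 := h n
      rw [Real.rpow_add h0, Real.rpow_one] at h2
      have h3 : a n * x ≤ a n - a (n + 1) := by
        rw [hx, mul_div_assoc', div_le_iff₀ hK]
        linarith
      linarith
    have hx1 : 0 < 1 - x := by
      by_contra hc
      push Not at hc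
      have : a n * (1 - x) ≤ 0 := mul_nonpos_of_nonneg_of_nonpos h0.le hc
      linarith
    have h4 : (a n * (1 - x)) ^ (-s) ≤ a (n + 1) ^ (-s) :=
      Real.rpow_le_rpow_of_nonpos h1 hle (by linarith)
    have h5 : (a n * (1 - x)) ^ (-s) = a n ^ (-s) * (1 - x) ^ (-s) :=
      Real.mul_rpow h0.le hx1.le
    have h6 : 1 + s * x ≤ (1 - x) ^ (-s) := by
      have h7 : 1 - x ≤ Real.exp (-x) := by
        have := Real.add_one_le_exp (-x)
        linarith
      have h8 : Real.exp (-x) ^ (-s) ≤ (1 - x) ^ (-s) :=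
        Real.rpow_le_rpow_of_nonpos hx1 h7 (by linarith)
      rw [← Real.exp_mul] at h8
      have h9 := Real.add_one_le_exp (-x * -s)
      have : -x * -s = s * x := by ring
      rw [this] at h8 h9
      linarith
    have h10 : a n ^ (-s) * (s * x) = s / K := by
      rw [hx, Real.rpow_neg h0.le]
      have : a n ^ s ≠ 0 := (Real.rpow_pos_of_pos h0 s).ne'
      field_simp
    have h11 : 0 ≤ a n ^ (-s) := (Real.rpow_pos_of_pos h0 _).le
    calc a n ^ (-s) + s / K = a n ^ (-s) * (1 + s * x) := by rw [mul_add, h10, mul_one]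
      _ ≤ a n ^ (-s) * (1 - x) ^ (-s) := mul_le_mul_of_nonneg_left h6 h11
      _ ≤ a (n + 1) ^ (-s) := by rw [← h5]; exact h4
  have key2 : ∀ n : ℕ, s / K * n ≤ a n ^ (-s) := by
    intro n
    induction n with
    | zero =>
      simpa using (Real.rpow_pos_of_pos (ha 0) _).le
    | succ n ih =>
      push_cast
      have := key n
      linarith
  intro n hn
  have hn' : (0 : ℝ) < n := by exact_mod_cast hn
  have h1 := key2 n
  have h2 : 0 < s / K * n := by positivity
  have h3 : (a n ^ (-s)) ^ (-(1 / s)) ≤ (s / K * n) ^ (-(1 / s)) :=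
    Real.rpow_le_rpow_of_nonpos h2 h1 (by
      have : 0 < 1 / s := by positivity
      linarith)
  rw [← Real.rpow_mul (ha n).le] at h3
  have h4 : -s * -(1 / s) = 1 := by field_simp
  rw [h4, Real.rpow_one] at h3
  refine h3.trans (le_of_eq ?_)
  rw [Real.rpow_neg h2.le, ← Real.inv_rpow h2.le]
  congr 1
  field_simp

/-! ### General facts on labelled graphs -/

section Graph

variable {V D : Type} (G : LGraph V D)

/-- The step in a direction as a bijection. -/
def stepE (e : D) : V ≃ V where
  toFun v := G.nxt v e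
  invFun v := G.nxt v (G.flip e)
  left_inv v := G.nxt_nxt v e
  right_inv v := by
    have := G.nxt_nxt v (G.flip e)
    rwa [G.flip_flip] at this

@[simp] lemma stepE_apply (e : D) (v : V) : stepE G e v = G.nxt v e := rfl

lemma nxt_flip_nxt (v : V) (e : D) : G.nxt (G.nxt v (G.flip e)) e = v :=
  (stepE G e).right_inv v

/-- The flip as a bijection. -/
def flipE : D ≃ D where
  toFun := G.flip
  invFun := G.flip
  left_inv := G.flip_flip
  right_inv := G.flip_flip

lemma tsum_step (q : V → ℝ) (e : D) : ∑' y, q (G.nxt y e) = ∑' y, q y :=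
  (stepE G e).tsum_eq q

lemma finite_support_step {q : V → ℝ} (hq : q.support.Finite) (e : D) :
    (fun y => q (G.nxt y e)).support.Finite := by
  have : (fun y => q (G.nxt y e)).support = (stepE G e) ⁻¹' q.support := by
    ext y; simp
  rw [this]
  exact hq.preimage (stepE G e).injective.injOn

variable [Fintype D]

lemma finite_support_avg {q : V → ℝ} (hq : q.support.Finite) : (G.avg q).support.Finite := by
  have h : (G.avg q).support ⊆ ⋃ e : D, (fun y => q (G.nxt y e)).support := by
    intro y hy
    by_contra hc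
    simp only [Set.mem_iUnion, Function.mem_support, not_exists, not_not] at hc
    apply hy
    simp [LGraph.avg, hc]
  exact (Set.finite_iUnion fun e => finite_support_step G hq e).subset h

lemma avg_nonneg {q : V → ℝ} (hq : ∀ v, 0 ≤ q v) (v : V) : 0 ≤ G.avg q v :=
  div_nonneg (Finset.sum_nonneg fun _ _ => hq _) (Nat.cast_nonneg _)

lemma tsum_avg [Nonempty D] {q : V → ℝ} (hq : q.support.Finite) :
    ∑' y, G.avg q y = ∑' y, q y := by
  have hm : (Fintype.card D : ℝ) ≠ 0 := Nat.cast_ne_zero.mpr Fintype.card_ne_zero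
  simp only [LGraph.avg]
  rw [tsum_div_const, Summable.tsum_finsetSum]
  · simp only [tsum_step, Finset.sum_const, Finset.card_univ, nsmul_eq_mul]
    field_simp
  · intro e _
    exact summable_of_hasFiniteSupport (finite_support_step G hq e)

lemma heat_nonneg (o : V) (n : ℕ) (v : V) : 0 ≤ G.heat o n v := by
  induction n generalizing v with
  | zero => simp only [LGraph.heat]; split_ifs <;> norm_num
  | succ n ih => exact avg_nonneg G ih v

lemma heat_finite (o : V) (n : ℕ) : (G.heat o n).support.Finite := by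
  induction n with
  | zero =>
    apply (Set.finite_singleton o).subset
    intro v hv
    by_contra hc
    simp only [Set.mem_singleton_iff] at hc
    exact hv (by simp [LGraph.heat, hc])
  | succ n ih => exact finite_support_avg G ih

lemma heat_tsum [Nonempty D] (o : V) (n : ℕ) : ∑' v, G.heat o n v = 1 := by
  induction n with
  | zero => simp [LGraph.heat]
  | succ n ih =>
    rw [← ih]
    exact tsum_avg G (heat_finite G o n)

lemma heat_comm (n : ℕ) : ∀ v y : V,
    ∑ e, G.heat (G.nxt v e) n y = ∑ e, G.heat v n (G.nxt y e) := by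
  induction n with
  | zero =>
    intro v y
    rw [← (flipE G).sum_comp fun e => G.heat v 0 (G.nxt y e)]
    apply Finset.sum_congr rfl
    intro e _
    simp only [LGraph.heat, flipE, Equiv.coe_fn_mk]
    by_cases h : y = G.nxt v e
    · have h2 : G.nxt y (G.flip e) = v := by rw [h, G.nxt_nxt]
      simp [h, G.nxt_nxt]
    · have h2 : G.nxt y (G.flip e) ≠ v := by
        intro h3
        apply h
        rw [← h3, nxt_flip_nxt]
      simp [h, h2]
  | succ n ih =>
    intro v y
    simp only [LGraph.heat, LGraph.avg]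
    rw [← Finset.sum_div, ← Finset.sum_div, Finset.sum_comm]
    congr 1
    apply Finset.sum_congr rfl
    intro e _
    exact ih v (G.nxt y e)

lemma heat_step_start (n : ℕ) (v y : V) :
    (∑ e, G.heat (G.nxt v e) n y) / (Fintype.card D : ℝ) = G.heat v (n + 1) y := by
  rw [heat_comm]; rfl

lemma heat_symm (n : ℕ) : ∀ o v : V, G.heat o n v = G.heat v n o := by
  induction n with
  | zero =>
    intro o v
    simp only [LGraph.heat]
    by_cases h : v = o
    · simp [h]
    · simp [h, Ne.symm h]
  | succ n ih =>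
    intro o v
    rw [← heat_step_start]
    change _ = (∑ e, G.heat v n (G.nxt o e)) / (Fintype.card D : ℝ)
    congr 1
    apply Finset.sum_congr rfl
    intro e _
    exact ih _ _

lemma chapman (o : V) (n k : ℕ) (v : V) :
    G.heat o (n + k) v = ∑' y, G.heat o n y * G.heat v k y := by
  induction k generalizing v with
  | zero =>
    rw [tsum_eq_single v]
    · simp [LGraph.heat]
    · intro y hy
      simp [LGraph.heat, hy]
  | succ k ih =>
    have h1 : G.heat o (n + (k + 1)) v =
        (∑ e, G.heat o (n + k) (G.nxt v e)) / (Fintype.card D : ℝ) := rfl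
    rw [h1]
    simp only [ih]
    rw [← Summable.tsum_finsetSum, ← tsum_div_const]
    · apply tsum_congr
      intro y
      rw [← Finset.mul_sum, mul_div_assoc, heat_step_start]
    · intro e _
      apply summable_of_hasFiniteSupport
      exact (heat_finite G o n).subset fun y hy => by
        intro h0
        exact hy (by simp [h0])

/-- The sum of the squares of the heat kernel. -/
noncomputable def sq (o : V) (n : ℕ) : ℝ := ∑' v, G.heat o n v ^ 2

lemma sq_pos [Nonempty D] (o : V) (n : ℕ) : 0 < sq G o n := by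
  have hs : Summable fun v => G.heat o n v ^ 2 := by
    apply summable_of_hasFiniteSupport
    exact (heat_finite G o n).subset fun y hy => by
      intro h0
      exact hy (by simp [h0])
  have hex : ∃ v, G.heat o n v ≠ 0 := by
    by_contra hc
    push Not at hc
    have := heat_tsum G o n
    simp [hc] at this
  obtain ⟨v, hv⟩ := hex
  exact hs.tsum_pos (fun _ => sq_nonneg _) v (by positivity)

lemma heat_even_le (o v : V) (n : ℕ) :
    G.heat o (n + n) v ≤ √(sq G o n) * √(sq G v n) := by
  rw [chapman]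
  classical
  set T : Finset V := (heat_finite G o n).toFinset ∪ (heat_finite G v n).toFinset with hT
  have hT1 : ∀ y, y ∉ T → G.heat o n y = 0 := by
    intro y hy
    simp only [hT, Finset.mem_union, Set.Finite.mem_toFinset, Function.mem_support, not_or,
      not_not] at hy
    exact hy.1
  have hT2 : ∀ y, y ∉ T → G.heat v n y = 0 := by
    intro y hy
    simp only [hT, Finset.mem_union, Set.Finite.mem_toFinset, Function.mem_support, not_or,
      not_not] at hy
    exact hy.2
  rw [tsum_eq_sum (s := T) (fun y hy => by rw [hT1 y hy, zero_mul])]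
  have e1 : sq G o n = ∑ y ∈ T, G.heat o n y ^ 2 :=
    tsum_eq_sum fun y hy => by rw [hT1 y hy]; ring
  have e2 : sq G v n = ∑ y ∈ T, G.heat v n y ^ 2 :=
    tsum_eq_sum fun y hy => by rw [hT2 y hy]; ring
  rw [e1, e2]
  exact Real.sum_mul_le_sqrt_mul_sqrt T _ _

lemma heat_succ_le (o : V) (n : ℕ) (M : ℝ) [Nonempty D] (h : ∀ v, G.heat o n v ≤ M) (v : V) :
    G.heat o (n + 1) v ≤ M := by
  have hm : (0 : ℝ) < (Fintype.card D : ℝ) := Nat.cast_pos.mpr Fintype.card_pos
  change (∑ e, G.heat o n (G.nxt v e)) / (Fintype.card D : ℝ) ≤ M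
  rw [div_le_iff₀ hm]
  calc ∑ e, G.heat o n (G.nxt v e) ≤ ∑ _e : D, M := Finset.sum_le_sum fun e _ => h _
    _ = M * (Fintype.card D : ℝ) := by simp [mul_comm]

lemma ent_ge {q : V → ℝ} (h0 : ∀ v, 0 ≤ q v) (hq : q.support.Finite) (h1 : ∑' v, q v = 1)
    (M : ℝ) (hM : ∀ v, q v ≤ M) : -Real.log M ≤ LGraph.ent q := by
  have hs : Summable fun v => q v * (-Real.log M) :=
    (summable_of_hasFiniteSupport hq).mul_right _
  have hs2 : Summable fun v => Real.negMulLog (q v) := by
    apply summable_of_hasFiniteSupport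
    exact hq.subset fun y hy => by
      intro h
      exact hy (by simp [h])
  have : ∑' v, q v * (-Real.log M) ≤ ∑' v, Real.negMulLog (q v) := by
    apply hs.tsum_le_tsum _ hs2
    intro v
    rcases (h0 v).eq_or_lt with h | h
    · simp [← h]
    · rw [Real.negMulLog, neg_mul, mul_neg, neg_le_neg_iff]
      exact mul_le_mul_of_nonneg_left (Real.log_le_log h (hM v)) (h0 v)
  rw [tsum_mul_right, h1, one_mul] at this
  exact this

end Graph

/-! ### The geometry of the lines -/

section Lines

variable {d : ℕ} (ω : Conf d) (hω : Good ω)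

/-- The next point in the positive direction `i`. -/
noncomputable def up (i : Fin d) (v : {v : Site d // ω v = true}) : {v : Site d // ω v = true} :=
  (siteGraph ω hω).nxt v (i, true)

lemma up_val (i : Fin d) (v : {v : Site d // ω v = true}) :
    ∃ k : ℕ, 0 < k ∧ (up ω hω i v).1 = Function.update v.1 i (v.1 i + k) := by
  refine ⟨hop (i, true) (shift v.1 ω), (hop_spec (hω v.1 v.2) (i, true)).1, ?_⟩
  change nxt ω v.1 (i, true) = _
  rw [nxt_eq]
  funext j
  by_cases hj : j = i
  · subst hj
    simp [unit]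
  · simp [unit, hj]

lemma up_iter (i : Fin d) (v : {v : Site d // ω v = true}) (k : ℕ) :
    ((up ω hω i)^[k] v).1 = Function.update v.1 i (((up ω hω i)^[k] v).1 i) := by
  induction k with
  | zero => simp
  | succ k ih =>
    rw [Function.iterate_succ_apply']
    obtain ⟨m, _, hm⟩ := up_val ω hω i ((up ω hω i)^[k] v)
    rw [hm]
    funext j
    by_cases hj : j = i
    · subst hj
      simp
    · have := congrFun ih j
      simp only [hj, ne_eq, not_false_eq_true, Function.update_of_ne] at this ⊢
      exact this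

lemma up_iter_strictMono (i : Fin d) (v : {v : Site d // ω v = true}) :
    StrictMono fun k : ℕ => ((up ω hω i)^[k] v).1 i := by
  apply strictMono_nat_of_lt_succ
  intro k
  rw [Function.iterate_succ_apply']
  obtain ⟨m, hm0, hm⟩ := up_val ω hω i ((up ω hω i)^[k] v)
  rw [hm]
  simp only [Function.update_self]
  omega

open Classical in
/-- The gradient at distance two, extended by zero. -/
noncomputable def grad2 (u : {v : Site d // ω v = true} → ℝ) (y : Site d) : ℝ≥0∞ :=
  if h : ω y = true then
    ∑ i, ENNReal.ofReal |u ⟨y, h⟩ - u (up ω hω i (up ω hω i ⟨y, h⟩))| else 0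

lemma grad2_val (u : {v : Site d // ω v = true} → ℝ) (v : {v : Site d // ω v = true}) :
    grad2 ω hω u v.1 = ∑ i, ENNReal.ofReal |u v - u (up ω hω i (up ω hω i v))| := by
  rw [grad2, dif_pos v.2]

lemma line_bound (u : {v : Site d // ω v = true} → ℝ) (hu : u.support.Finite)
    (x : {v : Site d // ω v = true}) (i : Fin d) :
    ENNReal.ofReal (u x) ≤ ∑' t : ℤ, grad2 ω hω u (Function.update x.1 i t) := by
  set p : ℕ → {v : Site d // ω v = true} := fun k => (up ω hω i)^[k] x with hp
  have hmono : StrictMono fun k => (p k).1 i := up_iter_strictMono ω hω i x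
  have hinj : Function.Injective p := by
    intro a b hab
    exact hmono.injective (by simp only [hab])
  have hfin : (p ⁻¹' u.support).Finite := hu.preimage hinj.injOn
  obtain ⟨B, hB⟩ := hfin.bddAbove
  have hN : u (p (2 * (B + 1))) = 0 := by
    by_contra hc
    have := hB (show 2 * (B + 1) ∈ p ⁻¹' u.support from hc)
    omega
  have hstep : ∀ k, p (2 * (k + 1)) = up ω hω i (up ω hω i (p (2 * k))) := by
    intro k
    simp only [hp]
    rw [show 2 * (k + 1) = (2 * k + 1) + 1 by ring, Function.iterate_succ_apply',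
      Function.iterate_succ_apply']
  have htel : u x = ∑ k ∈ Finset.range (B + 1), (u (p (2 * k)) - u (p (2 * (k + 1)))) := by
    rw [Finset.sum_range_sub' (fun k => u (p (2 * k)))]
    rw [hN]
    simp [hp]
  have h1 : ENNReal.ofReal (u x) ≤
      ∑ k ∈ Finset.range (B + 1), grad2 ω hω u (p (2 * k)).1 := by
    calc ENNReal.ofReal (u x)
        ≤ ENNReal.ofReal (∑ k ∈ Finset.range (B + 1), |u (p (2 * k)) - u (p (2 * (k + 1)))|) := by
          apply ENNReal.ofReal_le_ofReal
          rw [htel]
          exact Finset.sum_le_sum fun k _ => le_abs_self _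
      _ = ∑ k ∈ Finset.range (B + 1),
            ENNReal.ofReal |u (p (2 * k)) - u (p (2 * (k + 1)))| :=
          ENNReal.ofReal_sum_of_nonneg fun k _ => abs_nonneg _
      _ ≤ _ := by
          apply Finset.sum_le_sum
          intro k _
          rw [grad2_val, hstep]
          exact Finset.single_le_sum
            (f := fun j => ENNReal.ofReal |u (p (2 * k)) - u (up ω hω j (up ω hω j (p (2 * k))))|)
            (fun _ _ => zero_le) (Finset.mem_univ i)
  refine h1.trans ?_
  have hval : ∀ k, (p k).1 = Function.update x.1 i ((p k).1 i) := up_iter ω hω i x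
  have h2 : ∑ k ∈ Finset.range (B + 1), grad2 ω hω u (p (2 * k)).1 =
      ∑ k ∈ Finset.range (B + 1),
        grad2 ω hω u (Function.update x.1 i ((p (2 * k)).1 i)) := by
    apply Finset.sum_congr rfl
    intro k _
    rw [← hval]
  rw [h2]
  have hinj2 : Function.Injective fun k : ℕ => (p (2 * k)).1 i := by
    intro a b hab
    have := hmono.injective hab
    omega
  rw [← Finset.sum_image (f := fun t : ℤ => grad2 ω hω u (Function.update x.1 i t))
    (g := fun k : ℕ => (p (2 * k)).1 i) (hinj2.injOn)]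
  exact ENNReal.sum_le_tsum _

lemma lintegral_pi_count (F : Site d → ℝ≥0∞) :
    ∫⁻ x, F x ∂(Measure.pi fun _ : Fin d => (Measure.count : Measure ℤ)) = ∑' x, F x := by
  rw [lintegral_countable']
  apply tsum_congr
  intro x
  rw [Measure.pi_singleton]
  simp

lemma tsum_grad2 (u : {v : Site d // ω v = true} → ℝ) :
    ∑' y, grad2 ω hω u y =
      ∑' v : {v : Site d // ω v = true},
        ∑ i, ENNReal.ofReal |u v - u (up ω hω i (up ω hω i v))| := by
  rw [← Function.Injective.tsum_eq (g := (Subtype.val : {v : Site d // ω v = true} → Site d))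
    Subtype.val_injective]
  · exact tsum_congr fun v => grad2_val ω hω u v
  · intro y hy
    by_contra hc
    apply hy
    rw [grad2, dif_neg]
    intro h
    exact hc ⟨⟨y, h⟩, rfl⟩

lemma sobolev (hd : 2 ≤ d) (u : {v : Site d // ω v = true} → ℝ) (hu : u.support.Finite) :
    ∑' v, ENNReal.ofReal (u v) ^ ((d : ℝ) / (d - 1)) ≤
      (∑' v : {v : Site d // ω v = true},
        ∑ i, ENNReal.ofReal |u v - u (up ω hω i (up ω hω i v))|) ^ ((d : ℝ) / (d - 1)) := by
  have hd' : (1 : ℝ) < d := by exact_mod_cast (by omega : 1 < d)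
  have hconj : Real.HolderConjugate (Fintype.card (Fin d) : ℝ) ((d : ℝ) / (d - 1)) := by
    rw [Fintype.card_fin]
    exact Real.HolderConjugate.conjExponent hd'
  have h := lintegral_prod_lintegral_pow_le (fun _ : Fin d => (Measure.count : Measure ℤ)) hconj
    (f := grad2 ω hω u) (Measurable.of_discrete)
  rw [lintegral_pi_count, lintegral_pi_count, tsum_grad2] at h
  refine le_trans ?_ h
  calc ∑' v : {v : Site d // ω v = true}, ENNReal.ofReal (u v) ^ ((d : ℝ) / (d - 1))
      ≤ ∑' v : {v : Site d // ω v = true}, ∏ i : Fin d,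
          (∫⁻ t, grad2 ω hω u (Function.update v.1 i t) ∂(Measure.count : Measure ℤ)) ^
            ((1 : ℝ) / ((Fintype.card (Fin d) : ℝ) - 1)) := by
        apply ENNReal.tsum_le_tsum
        intro v
        have : ENNReal.ofReal (u v) ^ ((d : ℝ) / (d - 1)) =
            ∏ _i : Fin d, ENNReal.ofReal (u v) ^ ((1 : ℝ) / ((Fintype.card (Fin d) : ℝ) - 1)) := by
          rw [Finset.prod_const, Finset.card_univ, Fintype.card_fin, ← ENNReal.rpow_natCast,
            ← ENNReal.rpow_mul]
          congr 1
          ring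
        rw [this]
        apply Finset.prod_le_prod'
        intro i _
        apply ENNReal.rpow_le_rpow
        · rw [lintegral_count]
          exact line_bound ω hω u hu v i
        · rw [Fintype.card_fin]
          apply div_nonneg zero_le_one
          linarith
    _ ≤ _ := by
        exact ENNReal.tsum_comp_le_tsum_of_injective Subtype.val_injective
          (fun x : Site d => ∏ i : Fin d,
          (∫⁻ t, grad2 ω hω u (Function.update x i t) ∂(Measure.count : Measure ℤ)) ^
            ((1 : ℝ) / ((Fintype.card (Fin d) : ℝ) - 1)))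

end Lines

/-! ### Energy and Nash inequality -/

section Nash

lemma var_bound {d : ℕ} (a : Fin d × Bool → ℝ) (hd : 1 ≤ d) :
    (∑ i, (a (i, true) - a (i, false)) ^ 2) / (2 * (2 * d)) ≤
      (∑ e, a e ^ 2) / (2 * d) - ((∑ e, a e) / (2 * d)) ^ 2 := by
  have hd0 : (0 : ℝ) < 2 * d := by
    have : (1 : ℝ) ≤ d := by exact_mod_cast hd
    linarith
  set μ : ℝ := (∑ e, a e) / (2 * d) with hμ
  have hcard : ∑ _e : Fin d × Bool, (1 : ℝ) = 2 * d := by
    simp [mul_comm]
  have h1 : ∑ e, (a e - μ) ^ 2 = ∑ e, a e ^ 2 - 2 * d * μ ^ 2 := by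
    have h2 : ∀ e, (a e - μ) ^ 2 = a e ^ 2 - 2 * μ * a e + μ ^ 2 * 1 := fun e => by ring
    simp only [h2]
    rw [Finset.sum_add_distrib, Finset.sum_sub_distrib, ← Finset.mul_sum, ← Finset.mul_sum, hcard]
    have h3 : ∑ e, a e = 2 * d * μ := by rw [hμ]; field_simp
    rw [h3]
    ring
  have h4 : (∑ i, (a (i, true) - a (i, false)) ^ 2) / 2 ≤ ∑ e, (a e - μ) ^ 2 := by
    rw [Fintype.sum_prod_type, Finset.sum_div]
    apply Finset.sum_le_sum
    intro i _
    rw [Fintype.sum_bool]
    nlinarith [sq_nonneg ((a (i, true) - μ) + (a (i, false) - μ))]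
  have h5 : (∑ e, a e ^ 2) / (2 * d) - μ ^ 2 = (∑ e, (a e - μ) ^ 2) / (2 * d) := by
    rw [h1]; field_simp
  rw [h5, ← div_div, div_le_div_iff_of_pos_right hd0]
  exact h4

variable {d : ℕ} (ω : Conf d) (hω : Good ω)

lemma card_dir (d : ℕ) : (Fintype.card (Dir d) : ℝ) = 2 * d := by
  simp [mul_comm]

lemma finite_support_up {q : {v : Site d // ω v = true} → ℝ} (hq : q.support.Finite) (i : Fin d) :
    (fun v => q (up ω hω i (up ω hω i v))).support.Finite :=
  finite_support_step (siteGraph ω hω)
    (finite_support_step (siteGraph ω hω) hq (i, true)) (i, true)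

lemma energy_bound (hd : 1 ≤ d) {q : {v : Site d // ω v = true} → ℝ} (hq : q.support.Finite) :
    (∑' v, ∑ i, (q v - q (up ω hω i (up ω hω i v))) ^ 2) / (2 * (2 * d)) ≤
      ∑' v, q v ^ 2 - ∑' v, (siteGraph ω hω).avg q v ^ 2 := by
  haveI : Nonempty (Dir d) := ⟨(⟨0, hd⟩, true)⟩
  set G := siteGraph ω hω with hG
  have hq2 : (fun v => q v ^ 2).support.Finite := hq.subset fun y hy => by
    intro h0
    exact hy (by simp [h0])
  have ha2 : (fun v => G.avg q v ^ 2).support.Finite :=
    (finite_support_avg G hq).subset fun y hy => by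
      intro h0
      exact hy (by simp [h0])
  have e1 : ∑' v, q v ^ 2 = ∑' v, G.avg (fun w => q w ^ 2) v := (tsum_avg G hq2).symm
  have e2 : ∀ i : Fin d, ∑' v, (q v - q (up ω hω i (up ω hω i v))) ^ 2 =
      ∑' y, (q (G.nxt y (i, true)) - q (G.nxt y (i, false))) ^ 2 := by
    intro i
    rw [← (stepE G (i, true)).tsum_eq
      (fun y => (q (G.nxt y (i, true)) - q (G.nxt y (i, false))) ^ 2)]
    apply tsum_congr
    intro v
    have h3 : G.nxt (G.nxt v (i, true)) (i, false) = v := G.nxt_nxt v (i, true)
    simp only [stepE_apply, h3]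
    change (q v - q (G.nxt (G.nxt v (i, true)) (i, true))) ^ 2 = _
    ring
  have hs1 : ∀ i : Fin d, Summable fun v => (q v - q (up ω hω i (up ω hω i v))) ^ 2 := by
    intro i
    apply summable_of_hasFiniteSupport
    apply (hq.union (finite_support_up ω hω hq i)).subset
    intro y hy
    by_contra hc
    simp only [Set.mem_union, Function.mem_support, not_or, not_not] at hc
    exact hy (by simp [hc.1, hc.2])
  have hs2 : ∀ i : Fin d, Summable fun y =>
      (q (G.nxt y (i, true)) - q (G.nxt y (i, false))) ^ 2 := by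
    intro i
    apply summable_of_hasFiniteSupport
    apply ((finite_support_step G hq (i, true)).union
      (finite_support_step G hq (i, false))).subset
    intro y hy
    by_contra hc
    simp only [Set.mem_union, Function.mem_support, not_or, not_not] at hc
    exact hy (by simp [hc.1, hc.2])
  have e3 : ∑' v, ∑ i, (q v - q (up ω hω i (up ω hω i v))) ^ 2 =
      ∑' y, ∑ i, (q (G.nxt y (i, true)) - q (G.nxt y (i, false))) ^ 2 := by
    rw [Summable.tsum_finsetSum fun i _ => hs1 i, Summable.tsum_finsetSum fun i _ => hs2 i]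
    exact Finset.sum_congr rfl fun i _ => e2 i
  have hsA : Summable fun v => G.avg (fun w => q w ^ 2) v :=
    summable_of_hasFiniteSupport (finite_support_avg G hq2)
  have hsB : Summable fun v => G.avg q v ^ 2 := summable_of_hasFiniteSupport ha2
  rw [e1, e3, ← hsA.tsum_sub hsB, ← tsum_div_const]
  apply Summable.tsum_le_tsum _ _ (hsA.sub hsB)
  · intro y
    have := var_bound (fun e : Fin d × Bool => q (G.nxt y e)) hd
    simp only [LGraph.avg, card_dir]
    exact this
  · exact (summable_sum fun i _ => hs2 i).div_const _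

lemma nash (hd : 2 ≤ d) {q : {v : Site d // ω v = true} → ℝ} (hq : q.support.Finite)
    (hq0 : ∀ v, 0 ≤ q v) (hq1 : ∑' v, q v = 1) :
    (∑' v, q v ^ 2) ^ (1 + 2 / (d : ℝ)) ≤
      16 * (d : ℝ) ^ 2 * (∑' v, q v ^ 2 - ∑' v, (siteGraph ω hω).avg q v ^ 2) := by
  classical
  have hd1 : (1 : ℝ) < d := by exact_mod_cast (by omega : 1 < d)
  have hd0 : (0 : ℝ) < d := by linarith
  set A : ℝ := ∑' v, q v ^ 2 with hA
  set E : ℝ := A - ∑' v, (siteGraph ω hω).avg q v ^ 2 with hE
  -- a finite set carrying everything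
  obtain ⟨T, hT⟩ : ∃ T : Finset {v : Site d // ω v = true},
      ∀ v, v ∉ T → q v = 0 ∧ ∀ i, q (up ω hω i (up ω hω i v)) = 0 := by
    have hfin : (q.support ∪ ⋃ i, (fun v => q (up ω hω i (up ω hω i v))).support).Finite :=
      hq.union (Set.finite_iUnion fun i => finite_support_up ω hω hq i)
    refine ⟨hfin.toFinset, fun v hv => ?_⟩
    simp only [Set.Finite.mem_toFinset, Set.mem_union, Set.mem_iUnion, Function.mem_support,
      not_or, not_exists, not_not] at hv
    exact hv
  have hq2 : (fun v => q v ^ 2).support.Finite := hq.subset fun y hy => by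
    intro h0
    exact hy (by simp [h0])
  -- the total variation of q^2
  set F : ℝ := ∑ v ∈ T, ∑ i, |q v ^ 2 - q (up ω hω i (up ω hω i v)) ^ 2| with hF
  have hF0 : 0 ≤ F := Finset.sum_nonneg fun _ _ => Finset.sum_nonneg fun _ _ => abs_nonneg _
  have hFt : ∑' v : {v : Site d // ω v = true},
        ∑ i, ENNReal.ofReal |q v ^ 2 - q (up ω hω i (up ω hω i v)) ^ 2| = ENNReal.ofReal F := by
    rw [tsum_eq_sum (s := T), hF, ENNReal.ofReal_sum_of_nonneg]
    · apply Finset.sum_congr rfl
      intro v _
      rw [ENNReal.ofReal_sum_of_nonneg]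
      intro i _
      exact abs_nonneg _
    · intro v _
      exact Finset.sum_nonneg fun _ _ => abs_nonneg _
    · intro v hv
      simp [(hT v hv).1, (hT v hv).2]
  have hA' : A = ∑ v ∈ T, q v ^ 2 := tsum_eq_sum fun v hv => by rw [(hT v hv).1]; ring
  -- Cauchy-Schwarz
  have hCS : F ≤ √(16 * (d : ℝ) ^ 2 * (E * A)) := by
    have c1 : F = ∑ x ∈ T ×ˢ (Finset.univ : Finset (Fin d)),
        |q x.1 - q (up ω hω x.2 (up ω hω x.2 x.1))| *
          |q x.1 + q (up ω hω x.2 (up ω hω x.2 x.1))| := by
      rw [Finset.sum_product, hF]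
      apply Finset.sum_congr rfl
      intro v _
      apply Finset.sum_congr rfl
      intro i _
      rw [← abs_mul]
      congr 1
      ring
    have c2 := Real.sum_mul_le_sqrt_mul_sqrt (T ×ˢ (Finset.univ : Finset (Fin d)))
      (fun x => |q x.1 - q (up ω hω x.2 (up ω hω x.2 x.1))|)
      (fun x => |q x.1 + q (up ω hω x.2 (up ω hω x.2 x.1))|)
    rw [← c1] at c2
    refine c2.trans ?_
    rw [← Real.sqrt_mul (Finset.sum_nonneg fun _ _ => sq_nonneg _)]
    apply Real.sqrt_le_sqrt
    simp only [sq_abs, Finset.sum_product]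
    have c3 : ∑ v ∈ T, ∑ i, (q v - q (up ω hω i (up ω hω i v))) ^ 2 ≤ 2 * (2 * d) * E := by
      have := energy_bound ω hω (by omega : 1 ≤ d) hq
      rw [div_le_iff₀ (by positivity)] at this
      rw [tsum_eq_sum (s := T) (fun v hv => by simp [(hT v hv).1, (hT v hv).2])] at this
      linarith
    have hup : ∀ i : Fin d, ∑ v ∈ T, q (up ω hω i (up ω hω i v)) ^ 2 = A := by
      intro i
      have h1 : ∑' v, q (up ω hω i (up ω hω i v)) ^ 2 =
          ∑ v ∈ T, q (up ω hω i (up ω hω i v)) ^ 2 :=
        tsum_eq_sum fun v hv => by rw [(hT v hv).2]; ring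
      rw [← h1, hA]
      have h2 := (stepE (siteGraph ω hω) (i, true)).tsum_eq (fun v => q (up ω hω i v) ^ 2)
      have h3 := (stepE (siteGraph ω hω) (i, true)).tsum_eq (fun v => q v ^ 2)
      exact h2.trans h3
    have c4 : ∑ v ∈ T, ∑ i, (q v + q (up ω hω i (up ω hω i v))) ^ 2 ≤ 4 * d * A := by
      calc ∑ v ∈ T, ∑ i, (q v + q (up ω hω i (up ω hω i v))) ^ 2
          ≤ ∑ v ∈ T, ∑ i, (2 * q v ^ 2 + 2 * q (up ω hω i (up ω hω i v)) ^ 2) := by
            apply Finset.sum_le_sum
            intro v _
            apply Finset.sum_le_sum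
            intro i _
            nlinarith [sq_nonneg (q v - q (up ω hω i (up ω hω i v)))]
        _ = ∑ i : Fin d, (2 * A + 2 * A) := by
            rw [Finset.sum_comm]
            apply Finset.sum_congr rfl
            intro i _
            rw [Finset.sum_add_distrib, ← Finset.mul_sum, ← Finset.mul_sum, hup, ← hA']
        _ = 4 * d * A := by
            simp only [Finset.sum_const, Finset.card_univ, Fintype.card_fin, nsmul_eq_mul]
            ring
    calc (∑ v ∈ T, ∑ i, (q v - q (up ω hω i (up ω hω i v))) ^ 2) *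
          (∑ v ∈ T, ∑ i, (q v + q (up ω hω i (up ω hω i v))) ^ 2)
        ≤ (2 * (2 * d) * E) * (4 * d * A) :=
          mul_le_mul c3 c4 (Finset.sum_nonneg fun _ _ => Finset.sum_nonneg fun _ _ => sq_nonneg _)
            ((Finset.sum_nonneg fun _ _ => Finset.sum_nonneg fun _ _ => sq_nonneg _).trans c3)
      _ = 16 * (d : ℝ) ^ 2 * (E * A) := by ring
  have hA0 : 0 ≤ A := by rw [hA']; exact Finset.sum_nonneg fun _ _ => sq_nonneg _
  -- Sobolev
  have hS := sobolev ω hω hd (fun v => q v ^ 2) hq2
  rw [hFt] at hS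
  -- interpolation
  have hI : A ≤ F ^ ((d : ℝ) / (d + 1)) := by
    have h1 : ENNReal.ofReal A ≤ ENNReal.ofReal (F ^ ((d : ℝ) / (d + 1))) := by
      have hθ : (0 : ℝ) ≤ 2 / ((d : ℝ) + 1) := by positivity
      have hη : (0 : ℝ) ≤ ((d : ℝ) - 1) / (d + 1) := div_nonneg (by linarith) (by linarith)
      have hsum : 2 / ((d : ℝ) + 1) + ((d : ℝ) - 1) / (d + 1) = 1 := by
        field_simp; ring
      have h2 := ENNReal.lintegral_mul_norm_pow_le
        (μ := (Measure.count : Measure {v : Site d // ω v = true}))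
        (f := fun v => ENNReal.ofReal (q v))
        (g := fun v => ENNReal.ofReal (q v ^ 2) ^ ((d : ℝ) / (d - 1)))
        (Measurable.of_discrete.aemeasurable) (Measurable.of_discrete.aemeasurable) hθ hη hsum
      rw [lintegral_count, lintegral_count, lintegral_count] at h2
      have h3 : ∑' v, ENNReal.ofReal (q v) = 1 := by
        rw [← ENNReal.ofReal_tsum_of_nonneg hq0 (summable_of_hasFiniteSupport hq), hq1,
          ENNReal.ofReal_one]
      rw [h3, ENNReal.one_rpow, one_mul] at h2
      have h4 : ∑' v, ENNReal.ofReal (q v) ^ (2 / ((d : ℝ) + 1)) *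
          (ENNReal.ofReal (q v ^ 2) ^ ((d : ℝ) / (d - 1))) ^ (((d : ℝ) - 1) / (d + 1)) =
          ENNReal.ofReal A := by
        rw [hA, ENNReal.ofReal_tsum_of_nonneg (fun v => sq_nonneg _)
          (summable_of_hasFiniteSupport hq2)]
        apply tsum_congr
        intro v
        rw [← ENNReal.rpow_mul, ENNReal.ofReal_pow (hq0 v), ← ENNReal.rpow_natCast,
          ← ENNReal.rpow_mul, ← ENNReal.rpow_add_of_nonneg _ _ hθ (by
            have : (0:ℝ) < d - 1 := by linarith
            positivity)]
        congr 1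
        have : (d : ℝ) - 1 ≠ 0 := by linarith
        push_cast
        field_simp
        ring
      rw [h4] at h2
      calc ENNReal.ofReal A ≤ _ := h2
        _ ≤ (ENNReal.ofReal F ^ ((d : ℝ) / (d - 1))) ^ (((d : ℝ) - 1) / (d + 1)) :=
            ENNReal.rpow_le_rpow hS hη
        _ = ENNReal.ofReal (F ^ ((d : ℝ) / (d + 1))) := by
            rw [← ENNReal.rpow_mul, ENNReal.ofReal_rpow_of_nonneg hF0 (by positivity)]
            congr 2
            have : (d : ℝ) - 1 ≠ 0 := by linarith
            field_simp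
    exact (ENNReal.ofReal_le_ofReal_iff (Real.rpow_nonneg hF0 _)).mp h1
  -- conclusion
  rcases hA0.eq_or_lt with h0 | hApos
  · -- impossible but harmless
    exfalso
    have hz : ∀ v, q v = 0 := by
      intro v
      have hs : Summable fun v => q v ^ 2 := summable_of_hasFiniteSupport hq2
      have h1 := hs.le_tsum v (fun _ _ => sq_nonneg _)
      rw [← hA, ← h0] at h1
      have : q v ^ 2 = 0 := le_antisymm h1 (sq_nonneg _)
      exact pow_eq_zero_iff (two_ne_zero) |>.mp this
    simp [hz] at hq1
  · have hG : A ^ (2 + 2 / (d : ℝ)) ≤ 16 * (d : ℝ) ^ 2 * (E * A) := by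
      have h1 : A ^ (((d : ℝ) + 1) / d) ≤ F := by
        have h2 := Real.rpow_le_rpow hA0 hI (by positivity : (0 : ℝ) ≤ ((d : ℝ) + 1) / d)
        rw [← Real.rpow_mul hF0] at h2
        have h3 : (d : ℝ) / (d + 1) * (((d : ℝ) + 1) / d) = 1 := by field_simp
        rwa [h3, Real.rpow_one] at h2
      have h4 := h1.trans hCS
      have h5 : 0 ≤ 16 * (d : ℝ) ^ 2 * (E * A) := by
        by_contra hc
        push Not at hc
        rw [Real.sqrt_eq_zero_of_nonpos hc.le] at h4
        have := Real.rpow_pos_of_pos hApos (((d : ℝ) + 1) / d)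
        linarith
      have h6 := pow_le_pow_left₀ (Real.rpow_nonneg hA0 _) h4 2
      rw [Real.sq_sqrt h5, ← Real.rpow_natCast, ← Real.rpow_mul hA0] at h6
      have h7 : ((d : ℝ) + 1) / d * ((2 : ℕ) : ℝ) = 2 + 2 / (d : ℝ) := by
        push_cast; field_simp
      rwa [h7] at h6
    have h8 : A ^ (2 + 2 / (d : ℝ)) = A ^ (1 + 2 / (d : ℝ)) * A := by
      rw [show (2 : ℝ) + 2 / (d : ℝ) = (1 + 2 / (d : ℝ)) + 1 by ring, Real.rpow_add hApos,
        Real.rpow_one]
    rw [h8, ← mul_assoc] at hG
    exact le_of_mul_le_mul_right hG hApos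

end Nash

/-! ### Conclusion -/

theorem stmtB : Pool.Agent.Helper58.Qip.StmtB := by
  intro d hd
  have hd1 : (1 : ℝ) < d := by exact_mod_cast (by omega : 1 < d)
  have hd0 : (0 : ℝ) < d := by linarith
  -- constants
  set K : ℝ := 16 * (d : ℝ) ^ 2 with hK
  have hKpos : 0 < K := by positivity
  set B : ℝ := (K / (2 / (d : ℝ))) ^ (1 / (2 / (d : ℝ))) with hB
  have hBpos : 0 < B := by positivity
  set M : ℝ := max 1 (B * 3 ^ ((d : ℝ) / 2)) with hM
  have hMpos : 0 < M := lt_of_lt_of_le one_pos (le_max_left _ _)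
  refine ⟨Real.log M, ?_⟩
  intro ω hω o n hn
  haveI : Nonempty (Dir d) := ⟨(⟨0, by omega⟩, true)⟩
  set G := siteGraph ω hω with hG
  -- the decay of the square sums
  have hdecay : ∀ (v : {v : Site d // ω v = true}) (k : ℕ), 1 ≤ k →
      sq G v k ≤ B * (k : ℝ) ^ (-((d : ℝ) / 2)) := by
    intro v k hk
    have hk0 : (0 : ℝ) < k := by exact_mod_cast hk
    have h1 := recursion_bound (fun k => sq G v k) (2 / (d : ℝ)) K (by positivity) hKpos
      (fun k => sq_pos G v k) (fun k => nash ω hω hd (heat_finite G v k)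
        (fun w => heat_nonneg G v k w) (heat_tsum G v k)) k hk
    refine h1.trans (le_of_eq ?_)
    have h2 : K / (2 / (d : ℝ) * k) = (K / (2 / (d : ℝ))) * (k : ℝ)⁻¹ := by
      field_simp
    rw [h2, Real.mul_rpow (by positivity) (by positivity), Real.inv_rpow hk0.le,
      ← Real.rpow_neg hk0.le, hB]
    congr 2
    field_simp
  -- even times
  have heven : ∀ k : ℕ, 1 ≤ k → ∀ v, G.heat o (k + k) v ≤ B * (k : ℝ) ^ (-((d : ℝ) / 2)) := by
    intro k hk v
    have h0 : 0 ≤ B * (k : ℝ) ^ (-((d : ℝ) / 2)) := by positivity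
    calc G.heat o (k + k) v ≤ √(sq G o k) * √(sq G v k) := heat_even_le G o v k
      _ ≤ √(B * (k : ℝ) ^ (-((d : ℝ) / 2))) * √(B * (k : ℝ) ^ (-((d : ℝ) / 2))) := by
          apply mul_le_mul (Real.sqrt_le_sqrt (hdecay o k hk)) (Real.sqrt_le_sqrt (hdecay v k hk))
            (Real.sqrt_nonneg _) (Real.sqrt_nonneg _)
      _ = _ := Real.mul_self_sqrt h0
  have hall : ∀ v, G.heat o n v ≤ M * (n : ℝ) ^ (-((d : ℝ) / 2)) := by
    intro v
    rcases Nat.lt_or_ge n 2 with h1 | h2
    · have hn1 : n = 1 := by omega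
      subst hn1
      have h3 : ∀ w, G.heat o 0 w ≤ 1 := by
        intro w
        simp only [LGraph.heat]
        split_ifs <;> norm_num
      have h4 := heat_succ_le G o 0 1 h3 v
      simp only [zero_add] at h4
      simp only [Nat.cast_one, Real.one_rpow, mul_one]
      exact h4.trans (le_max_left _ _)
    · set k := n / 2 with hk
      have hk1 : 1 ≤ k := by omega
      have hk0 : (0 : ℝ) < k := by exact_mod_cast hk1
      have hn0 : (0 : ℝ) < n := by exact_mod_cast hn
      have h5 : G.heat o n v ≤ B * (k : ℝ) ^ (-((d : ℝ) / 2)) := by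
        rcases Nat.even_or_odd n with he | ho
        · have : n = k + k := by
            obtain ⟨r, hr⟩ := he
            omega
          rw [this]
          exact heven k hk1 v
        · have : n = k + k + 1 := by
            obtain ⟨r, hr⟩ := ho
            omega
          rw [this]
          exact heat_succ_le G o (k + k) _ (heven k hk1) v
      have h6 : (k : ℝ) ^ (-((d : ℝ) / 2)) ≤ 3 ^ ((d : ℝ) / 2) * (n : ℝ) ^ (-((d : ℝ) / 2)) := by
        have h7 : (n : ℝ) / 3 ≤ k := by
          rw [div_le_iff₀ (by norm_num)]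
          have : n ≤ k * 3 := by omega
          exact_mod_cast this
        have h8 : (k : ℝ) ^ (-((d : ℝ) / 2)) ≤ ((n : ℝ) / 3) ^ (-((d : ℝ) / 2)) :=
          Real.rpow_le_rpow_of_nonpos (by positivity) h7 (by linarith)
        refine h8.trans (le_of_eq ?_)
        rw [Real.div_rpow hn0.le (by norm_num), Real.rpow_neg (by norm_num : (0:ℝ) ≤ 3)]
        field_simp
      calc G.heat o n v ≤ B * (k : ℝ) ^ (-((d : ℝ) / 2)) := h5
        _ ≤ B * (3 ^ ((d : ℝ) / 2) * (n : ℝ) ^ (-((d : ℝ) / 2))) :=
            mul_le_mul_of_nonneg_left h6 hBpos.le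
        _ = (B * 3 ^ ((d : ℝ) / 2)) * (n : ℝ) ^ (-((d : ℝ) / 2)) := by ring
        _ ≤ M * (n : ℝ) ^ (-((d : ℝ) / 2)) :=
            mul_le_mul_of_nonneg_right (le_max_right _ _) (by positivity)
  have hent := ent_ge (fun v => heat_nonneg G o n v) (heat_finite G o n) (heat_tsum G o n) _ hall
  have hn0 : (0 : ℝ) < n := by exact_mod_cast hn
  rw [Real.log_mul hMpos.ne' (by positivity), Real.log_rpow hn0] at hent
  linarith

end Pool.Agent.Helper31.Qip
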